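import Pool.Agent.H55.GW.Targets3

/-!
Module XU of the board wq_modules: few vertices of class Q are cut off from the sources by
monotone cuts.
-/

set_option autoImplicit false

open Pool.Agent.H55.GW
open Pool.Agent.H55.GW.Frame

namespace Pool.Agent.H84.GW

section walks
variable {W : Type} {D : W → W → Prop} {S T : Set W} {x y : W}

/-- a walk either avoids `T` or has a last vertex in `T` -/
theorem avoid_or_last (h : RIn D S x y) (T : Set W) :
    RIn D (S \ T) x y ∨ ∃ z ∈ T, RIn D S x z ∧ RIn D ((S \ T) ∪ {z}) z y := by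
  rcases h.rev.avoid_or T with h1 | ⟨z, hz, h1, h2⟩
  · exact Or.inl h1.rev
  · exact Or.inr ⟨z, hz, h2.rev, h1.rev⟩

/-- the part of a simple path after a vertex other than the first one avoids the first one -/
theorem path_suffix {l : List W} (h : IsPath D l x y) {w : W} (hw : w ∈ l) (hne : w ≠ x) :
    RIn D ({u | u ∈ l} \ {x}) w y := by
  obtain ⟨l₁, l₂, rfl⟩ := List.append_of_mem hw
  obtain ⟨hc, hn, hh, hl⟩ := h
  have hp : IsPath D (w :: l₂) w y := by
    refine ⟨List.IsChain.right_of_append hc, (List.nodup_append.1 hn).2.1, by simp, ?_⟩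
    rw [List.getLast?_append_of_ne_nil _ (by simp)] at hl
    exact hl
  have hx : x ∈ l₁ := by
    cases l₁ with
    | nil =>
      simp only [List.nil_append, List.head?_cons, Option.some.injEq] at hh
      exact absurd hh hne
    | cons a l =>
      simp only [List.cons_append, List.head?_cons, Option.some.injEq] at hh
      subst hh
      simp
  refine hp.rIn.mono_set ?_
  intro u hu
  refine ⟨List.mem_append.2 (Or.inr hu), ?_⟩
  intro he
  have he' : u = x := he
  rw [he'] at hu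
  exact (List.nodup_append.1 hn).2.2 x hx x hu rfl

end walks

variable {F : Frame} {m : ℕ → Vx}

/-- a vertex with an out-arc is internal or a source -/
theorem inn_or_src {x y : Vx} (h : F.D m x y) : x ∈ F.inn ∨ x ∈ F.src m := by
  rcases x with e | v
  · right
    rcases (D_uni h).1 with ⟨w, _, hw⟩ | ⟨e', he', hw⟩
    · cases hw
    · cases hw
      refine ⟨e, he', ?_, rfl⟩
      intro hb
      exact no_out_snk hb y h
  · left
    rcases (D_uni h).1 with ⟨w, hw', hw⟩ | ⟨e', he', hw⟩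
    · exact ⟨w, hw', hw⟩
    · cases hw

/-- a walk from the root of a rail to a later vertex of the rail -/
theorem rail_walk {k : ℕ} {len : Fin k → ℕ} {r : Fin k → ℕ → Vx} {A B : Set Vx}
    (h : Rails (F.D m) k len r A B) (c : Fin k) (P : ℕ) (hP : P ≤ len c) (p : ℕ) (hp : p ≤ P) :
    RIn (F.D m) {x | ∃ p' ≤ P, x = r c p'} (r c 0) (r c p) := by
  induction p with
  | zero => exact RIn.refl ⟨0, Nat.zero_le _, rfl⟩
  | succ p ih =>
    exact (ih (by omega)).tail (h.arc c p (by omega)) ⟨p + 1, hp, rfl⟩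

/-- two disjoint walks ending at in-neighbours of `v` -/
theorem two_fan (hMEN : T_MEN) {v : ℕ}
    (hfan : ∀ z : Vx, z ≠ Sum.inr v → ∃ s ∈ F.src m, RIn (F.D m) {z}ᶜ s (Sum.inr v)) :
    ∃ (x y : Fin 2 → Vx) (S : Fin 2 → Set Vx), (∀ j, x j ∈ F.src m ∧ F.D m (y j) (Sum.inr v) ∧
      Sum.inr v ∉ S j ∧ RIn (F.D m) (S j) (x j) (y j)) ∧ Disjoint (S 0) (S 1) := by
  classical
  set D' : Vx → Vx → Prop := fun a b => F.D m a b ∧ a ≠ Sum.inr v ∧ b ≠ Sum.inr v with hD'
  have hlnk : Lnk D' 2 (F.src m) {y | F.D m y (Sum.inr v)} := by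
    refine hMEN Vx D' F.uni F.uni_finite (fun a b h => D_uni h.1) _ _ ?_ ?_ 2 ?_
    · rintro x ⟨e, he, _, rfl⟩
      exact Or.inr ⟨e, he, rfl⟩
    · intro y hy
      exact (D_uni hy).1
    · intro S hS
      by_contra hcard
      have hcard' : S.card ≤ 1 := by omega
      obtain ⟨z, hz, hSz⟩ : ∃ z : Vx, z ≠ Sum.inr v ∧ ∀ a ∈ S, a = z ∨ a = Sum.inr v := by
        rcases S.eq_empty_or_nonempty with h0 | ⟨a, ha⟩
        · exact ⟨Sum.inl 0, by simp, by simp [h0]⟩
        · have hall : ∀ b ∈ S, b = a := fun b hb => Finset.card_le_one.1 hcard' b hb a ha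
          by_cases hav : a = Sum.inr v
          · exact ⟨Sum.inl 0, by simp, fun b hb => Or.inr ((hall b hb).trans hav)⟩
          · exact ⟨a, hav, fun b hb => Or.inl (hall b hb)⟩
      obtain ⟨s, hs, hw⟩ := hfan z hz
      have hsv : s ∉ ({Sum.inr v} : Set Vx) := by
        obtain ⟨e, _, _, rfl⟩ := hs
        simp
      obtain ⟨u, w, h1, h2, h3, h4, h5⟩ := hw.enter hsv rfl
      have hwv : w = Sum.inr v := h4
      subst hwv
      refine hS s hs u h3 ?_
      refine h1.mono (fun a b hab ha hb => ⟨hab, ha.2, hb.2⟩) ?_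
      intro a ha haS
      rcases hSz a haS with h6 | h6
      · exact ha.1 h6
      · exact ha.2 h6
  obtain ⟨x, y, S, h1, h2⟩ := hlnk
  refine ⟨x, y, fun j => S j \ {Sum.inr v}, fun j => ⟨(h1 j).1, (h1 j).2.1, fun h => h.2 rfl, ?_⟩, ?_⟩
  · rcases (h1 j).2.2.avoid_or {Sum.inr v} with h3 | ⟨z, hz, h3, h4⟩
    · exact h3.mono (fun a b hab _ _ => hab.1) subset_rfl
    · exfalso
      have hzv : z = Sum.inr v := hz
      subst hzv
      rcases h3.cases_tail with h5 | ⟨u, h5, h6⟩
      · obtain ⟨e, _, _, he⟩ := (h1 j).1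
        rw [he] at h5
        cases h5
      · exact h6.2.2 rfl
  · exact (h2 0 1 (by decide)).mono Set.sdiff_subset Set.sdiff_subset

/-- the data of one vertex -/
structure Tails (F : Frame) (m : ℕ → Vx) {k : ℕ} (r : Fin k → ℕ → Vx) (pz : Fin k → ℕ) (v : ℕ)
    (c : Fin k) (A : Finset Vx) (u : Vx) : Prop where
  start : r c (pz c) ∈ A
  nv : Sum.inr v ∉ A
  sep : ∀ x ∈ A, Sep (F.D m) (Zs r pz) (F.src m) {x}
  inn : ∀ x ∈ A, x ∈ F.inn ∨ x ∈ F.src m
  walk : RIn (F.D m) (A : Set Vx) (r c (pz c)) u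
  last : F.D m u (Sum.inr v)

theorem exists_tail {k : ℕ} {r : Fin k → ℕ → Vx} {pz : Fin k → ℕ} {v : ℕ}
    (hnZ : Sum.inr v ∉ Zs r pz) (hsep : Sep (F.D m) (Zs r pz) (F.src m) {Sum.inr v})
    {x y : Vx} {S : Set Vx} (hx : x ∈ F.src m) (hy : F.D m y (Sum.inr v))
    (hv : Sum.inr v ∉ S) (hw : RIn (F.D m) S x y) :
    ∃ (c : Fin k) (A : Finset Vx) (u : Vx), (A : Set Vx) ⊆ S ∧ Tails F m r pz v c A u := by
  classical
  have hnav : ¬ RIn (F.D m) (S \ Zs r pz) x y := by
    intro h
    refine hsep x hx _ rfl ?_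
    exact (h.mono_set (fun a ha => ha.2)).tail hy hnZ
  obtain ⟨ζ, hζ, h1, h2⟩ := (avoid_or_last hw (Zs r pz)).resolve_left hnav
  obtain ⟨c, rfl⟩ := hζ
  obtain ⟨l, hl, hlS⟩ := h2.exists_path
  have hlS' : ∀ a ∈ l, a ∈ S := by
    intro a ha
    rcases hlS a ha with h3 | h3
    · exact h3.1
    · rw [show a = _ from h3]
      exact h1.right_mem
  refine ⟨c, l.toFinset, y, fun a ha => hlS' a (by simpa using ha), ?_, ?_, ?_, ?_, ?_, hy⟩
  · simpa using hl.mem_left
  · intro h
    exact hv (hlS' _ (by simpa using h))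
  · intro a ha s hs b hb hR
    have hb' : b = a := hb
    subst hb'
    have ha' : b ∈ l := by simpa using ha
    by_cases hbc : b = r c (pz c)
    · exact hR.right_mem ⟨c, hbc⟩
    · have h3 := path_suffix hl ha' hbc
      refine hsep s hs _ rfl (hR.trans ?_)
      refine (h3.mono_set ?_).tail hy hnZ
      intro w hw
      rcases hlS w hw.1 with h4 | h4
      · exact h4.2
      · exact absurd h4 hw.2
  · intro a ha
    have ha' : a ∈ l := by simpa using ha
    have h3 : RIn (F.D m) {w | w ∈ l} a y := by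
      by_cases hac : a = r c (pz c)
      · rw [hac]
        exact hl.rIn
      · exact (path_suffix hl ha' hac).mono_set Set.sdiff_subset
    rcases h3.cases_head with h4 | ⟨z, h4, _, _⟩
    · rw [h4]
      exact inn_or_src hy
    · exact inn_or_src h4
  · exact hl.rIn.mono_set (fun a ha => by simpa using ha)

theorem two_tails (hMEN : T_MEN) (hm : F.IsPM m) (hco : F.CoFan m) {k : ℕ} {len : Fin k → ℕ}
    {r : Fin k → ℕ → Vx} (hr : Rails (F.D m) k len r (F.src m) (F.snk m)) {pz : Fin k → ℕ}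
    (hpz : ∀ c, 1 ≤ pz c ∧ pz c < len c) {v : ℕ} (hV : v ∈ F.V) (hQ : ¬ F.isP v)
    (hnZ : Sum.inr v ∉ Zs r pz) (hsep : Sep (F.D m) (Zs r pz) (F.src m) {Sum.inr v}) :
    ∃ (c : Fin 2 → Fin k) (A : Fin 2 → Finset Vx) (u : Fin 2 → Vx),
      (∀ j, Tails F m r pz v (c j) (A j) (u j)) ∧ Disjoint (A 0) (A 1) := by
  classical
  have hfan : ∀ z : Vx, z ≠ Sum.inr v → ∃ s ∈ F.src m, RIn (F.D m) {z}ᶜ s (Sum.inr v) := by
    rcases hco v hV hQ with hexc | h
    · exfalso
      obtain ⟨hadj, e, e', hne, he, he', hall⟩ := hexc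
      rcases hm.cases hV with ⟨e0, h1, h2⟩ | ⟨w, _, _, _, _, h3⟩
      · obtain ⟨e1, h3, h4⟩ : ∃ e1, F.att e1 v ∧ e1 ≠ e0 := by
          rcases hall e0 h2 with h5 | h5
          · exact ⟨e', he', fun h6 => hne (h5.symm.trans h6.symm)⟩
          · exact ⟨e, he, fun h6 => hne (h6.trans h5)⟩
        have h5 : e1 ∉ F.base m := by
          rw [mem_base_iff h3]
          intro h6
          apply hQ
          apply h6.2
          rw [h1]
          intro h7
          exact h4 (Sum.inl.inj h7).symm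
        have h6 : (Sum.inl e1 : Vx) ∉ Zs r pz := by
          rintro ⟨c, hc⟩
          have h7 := hr.arc c (pz c - 1) (by have := hpz c; omega)
          have h8 : pz c - 1 + 1 = pz c := by have := hpz c; omega
          rw [h8, ← hc] at h7
          exact no_in_src h5 _ h7
        exact hsep (Sum.inl e1) ⟨e1, att_E h3, h5, rfl⟩ _ rfl
          (RIn.single (⟨h3, h5⟩ : F.D m (Sum.inl e1) (Sum.inr v)) h6 hnZ)
      · rcases h3 with h3 | h3
        · exact (hadj w).1 h3
        · exact (hadj w).2 h3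
    · exact h
  obtain ⟨x, y, S, h1, h2⟩ := two_fan hMEN hfan
  choose c A u hA hT using fun j => exists_tail hnZ hsep (h1 j).1 (h1 j).2.1 (h1 j).2.2.1
    (h1 j).2.2.2
  refine ⟨c, A, u, hT, ?_⟩
  rw [← Finset.disjoint_coe]
  exact h2.mono (hA 0) (hA 1)

theorem xu (hMEN : T_MEN) (hSUN : T_SUN) (hLO : T_LO) : T_XU := by
  classical
  intro q hq φ hφ k
  obtain ⟨KLO, hKLO⟩ := hLO q hq φ hφ 2
  set b : ℕ := (k * k) * ((φ k + 1) * (φ k + 1)) with hb
  obtain ⟨N0, hN0⟩ := hSUN (φ k) (b * KLO + 2)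
  refine ⟨N0, ?_⟩
  intro M F m hG hR hm hex hfe hco len r hr N pz hpz hmono X hX
  by_contra hlt
  push Not at hlt
  -- choose `N0` distinct vertices of `X`
  let v : Fin N0 → ℕ := fun t => (X.equivFin.symm (Fin.castLE hlt.le t)).1
  have hvinj : Function.Injective v := by
    intro t t' h
    have h1 := Subtype.ext h
    have h2 := X.equivFin.symm.injective h1
    exact Fin.castLE_injective _ h2
  have hvX : ∀ t, v t ∈ X := fun t => (X.equivFin.symm (Fin.castLE hlt.le t)).2
  choose i hi hnZ hsep using fun t => (hX (v t) (hvX t)).2.2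
  choose c A u hT hdis using fun t => two_tails hMEN hm hco hr (hpz (i t) (hi t))
    (hX (v t) (hvX t)).1 (hX (v t) (hvX t)).2.1 (hnZ t) (hsep t)
  -- the sunflower
  have hcard : ∀ t, (A t 0 ∪ A t 1).card ≤ φ k := by
    intro t
    have h1 := hfe (A t 0 ∪ A t 1) (by
      intro x hx
      rcases Finset.mem_union.1 hx with h | h
      · exact (hT t 0).inn x h
      · exact (hT t 1).inn x h) (Finset.univ.image fun c => r c (pz (i t) c)) (by
      have hco : ((Finset.univ.image fun c => r c (pz (i t) c) : Finset Vx) : Set Vx) =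
          Zs r (pz (i t)) := by
        ext x
        simp only [Finset.coe_image, Finset.coe_univ, Set.image_univ, Set.mem_range, Zs,
          Set.mem_setOf_eq]
        exact ⟨fun ⟨c, hc⟩ => ⟨c, hc.symm⟩, fun ⟨c, hc⟩ => ⟨c, hc.symm⟩⟩
      rw [hco]
      intro s hs x hx
      rcases Finset.mem_union.1 (Finset.mem_coe.1 hx) with h | h
      · exact (hT t 0).sep x h s hs x rfl
      · exact (hT t 1).sep x h s hs x rfl)
    refine h1.trans (hφ ?_)
    refine Finset.card_image_le.trans ?_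
    simp
  obtain ⟨g, Y, hginj, hY⟩ := hN0 (fun t => A t 0 ∪ A t 1) hcard
  have hYsub : ∀ t, Y ⊆ A (g t) 0 ∪ A (g t) 1 := by
    intro t x hx
    obtain ⟨t', ht'⟩ : ∃ t' : Fin (b * KLO + 2), t ≠ t' := by
      by_cases h0 : t = ⟨0, by omega⟩
      · exact ⟨⟨1, by omega⟩, by rw [h0]; intro h; simp at h⟩
      · exact ⟨⟨0, by omega⟩, h0⟩
    exact ((hY t t' ht' x).2 hx).1
  have hYcard : Y.card ≤ φ k :=
    (Finset.card_le_card (hYsub ⟨0, by omega⟩)).trans (hcard _)
  -- the last vertices in `Y`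
  have hex2 : ∀ (t : Fin (b * KLO + 2)) (j : Fin 2), ∃ y : Option Vx,
      (∀ z, y = some z → z ∈ Y) ∧
      ((y = none ∧ RIn (F.D m) ((A (g t) j : Set Vx) \ Y)
        (r (c (g t) j) (pz (i (g t)) (c (g t) j))) (u (g t) j)) ∨
      (∃ z, y = some z ∧ z ∈ Y ∧ RIn (F.D m) (A (g t) j : Set Vx)
        (r (c (g t) j) (pz (i (g t)) (c (g t) j))) z ∧
        RIn (F.D m) (((A (g t) j : Set Vx) \ Y) ∪ {z}) z (u (g t) j))) := by
    intro t j
    rcases avoid_or_last (hT (g t) j).walk (Y : Set Vx) with h | ⟨z, hz, h1, h2⟩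
    · exact ⟨none, by simp, Or.inl ⟨rfl, h⟩⟩
    · refine ⟨some z, ?_, Or.inr ⟨z, rfl, hz, h1, h2⟩⟩
      intro z' hz'
      cases hz'
      exact hz
  choose y hyY hy using hex2
  -- pigeonhole
  obtain ⟨I, hIcard, hI⟩ : ∃ I : Finset (Fin (b * KLO + 2)), KLO < I.card ∧
      ∃ (c0 c1 : Fin k) (y0 y1 : Option Vx), ∀ t ∈ I, c (g t) 0 = c0 ∧ c (g t) 1 = c1 ∧
        y t 0 = y0 ∧ y t 1 = y1 := by
    let ff : Fin (b * KLO + 2) → (Fin k × Fin k) × (Option Vx × Option Vx) := fun t =>
      ((c (g t) 0, c (g t) 1), (y t 0, y t 1))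
    let TT : Finset ((Fin k × Fin k) × (Option Vx × Option Vx)) :=
      (Finset.univ : Finset (Fin k × Fin k)) ×ˢ ((Finset.insertNone Y) ×ˢ (Finset.insertNone Y))
    have hmaps : ∀ t ∈ (Finset.univ : Finset (Fin (b * KLO + 2))), ff t ∈ TT := by
      intro t _
      simp only [TT, ff, Finset.mem_product, Finset.mem_univ, true_and]
      constructor
      · rw [Finset.mem_insertNone]
        intro z hz
        exact hyY t 0 z hz
      · rw [Finset.mem_insertNone]
        intro z hz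
        exact hyY t 1 z hz
    have hTT : TT.card ≤ b := by
      simp only [TT, Finset.card_product, Finset.card_univ, Fintype.card_prod, Fintype.card_fin,
        Finset.card_insertNone]
      rw [hb]
      gcongr
    have hlt2 : TT.card * KLO < (Finset.univ : Finset (Fin (b * KLO + 2))).card := by
      rw [Finset.card_univ, Fintype.card_fin]
      have : TT.card * KLO ≤ b * KLO := Nat.mul_le_mul_right _ hTT
      omega
    obtain ⟨w, _, hw⟩ := Finset.exists_lt_card_fiber_of_mul_lt_card_of_maps_to hmaps hlt2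
    refine ⟨_, hw, w.1.1, w.1.2, w.2.1, w.2.2, ?_⟩
    intro t ht
    have h1 : ff t = w := (Finset.mem_filter.1 ht).2
    rw [← h1]
    exact ⟨rfl, rfl, rfl, rfl⟩
  obtain ⟨c0, c1, y0, y1, hI⟩ := hI
  have hIne : I.Nonempty := Finset.card_pos.1 (by omega)
  obtain ⟨t0, ht0, hmax⟩ := Finset.exists_max_image I (fun t => i (g t)) hIne
  -- uniform notation
  let cc : Fin 2 → Fin k := fun j => if j = 0 then c0 else c1
  let yy : Fin 2 → Option Vx := fun j => if j = 0 then y0 else y1
  have hcc : ∀ t ∈ I, ∀ j, c (g t) j = cc j := by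
    intro t ht j
    obtain ⟨h1, h2, _, _⟩ := hI t ht
    fin_cases j
    · exact h1
    · exact h2
  have hyy : ∀ t ∈ I, ∀ j, y t j = yy j := by
    intro t ht j
    obtain ⟨_, _, h1, h2⟩ := hI t ht
    fin_cases j
    · exact h1
    · exact h2
  set j0 : ℕ := i (g t0) with hj0
  have hj0N : j0 ≤ N := hi (g t0)
  let T : Fin 2 → Set Vx := fun j => {x | ∃ p ≤ pz j0 (cc j), x = r (cc j) p} ∪
    (A (g t0) j : Set Vx)
  let S : Fin 2 → Fin I.card → Set Vx := fun j n =>
    ((A (g (I.equivFin.symm n)) j : Set Vx) \ Y) ∪ {Sum.inr (v (g (I.equivFin.symm n)))}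
  have hYn : ∀ t, Sum.inr (v (g t)) ∉ Y := by
    intro t h
    rcases Finset.mem_union.1 (hYsub t h) with h1 | h1
    · exact (hT (g t) 0).nv h1
    · exact (hT (g t) 1).nv h1
  -- the walks
  have hwalk : ∀ j n, RIn (F.D m) (T j ∪ S j n) (r (cc j) 0)
      (Sum.inr (v (g (I.equivFin.symm n)))) := by
    intro j n
    set t := (I.equivFin.symm n : Fin (b * KLO + 2)) with ht
    have htI : t ∈ I := (I.equivFin.symm n).2
    have hlen : pz j0 (cc j) ≤ len (cc j) := ((hpz j0 hj0N) (cc j)).2.le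
    have hrail : ∀ p ≤ pz j0 (cc j), RIn (F.D m) (T j ∪ S j n) (r (cc j) 0) (r (cc j) p) := by
      intro p hp
      exact (rail_walk hr (cc j) (pz j0 (cc j)) hlen p hp).mono_set
        (fun x hx => Or.inl (Or.inl hx))
    have hlast : RIn (F.D m) (T j ∪ S j n) (r (cc j) 0) (u (g t) j) := by
      rcases hy t j with ⟨h1, h2⟩ | ⟨z, h1, h2, h3, h4⟩
      · rw [hcc t htI j] at h2
        have h5 : pz (i (g t)) (cc j) ≤ pz j0 (cc j) := hmono _ _ (hmax t htI) hj0N (cc j)
        exact (hrail _ h5).trans (h2.mono_set (fun x hx => Or.inr (Or.inl hx)))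
      · rcases hy t0 j with ⟨h5, h6⟩ | ⟨z', h5, h6, h7, h8⟩
        · rw [hyy t0 ht0 j, ← hyy t htI j, h1] at h5
          cases h5
        · have hzz : z' = z := by
            rw [hyy t0 ht0 j, ← hyy t htI j, h1] at h5
            exact (Option.some.inj h5).symm
          subst hzz
          rw [hcc t0 ht0 j] at h7
          have h9 : RIn (F.D m) (T j ∪ S j n) (r (cc j) 0) z' :=
            (hrail _ le_rfl).trans (h7.mono_set (fun x hx => Or.inl (Or.inr hx)))
          refine h9.trans (h4.mono_set ?_)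
          intro x hx
          rcases hx with hx | hx
          · exact Or.inr (Or.inl hx)
          · rw [show x = z' from hx]
            exact h9.right_mem
    exact hlast.tail (hT (g t) j).last (Or.inr (Or.inr rfl))
  -- disjointness of the trunks
  have hcne : c0 ≠ c1 := by
    intro he
    have h1 := (hT (g t0) 0).start
    have h2 := (hT (g t0) 1).start
    rw [(hI t0 ht0).1] at h1
    rw [(hI t0 ht0).2.1, ← he] at h2
    exact Finset.disjoint_left.1 (hdis (g t0)) h1 h2
  have hccne : cc 0 ≠ cc 1 := hcne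
  have hrA : ∀ j j' : Fin 2, j ≠ j' → ∀ p ≤ pz j0 (cc j), r (cc j) p ∉ A (g t0) j' := by
    intro j j' hjj p hp hmem
    have hdj : ∀ x, x ∈ A (g t0) j → x ∉ A (g t0) j' := by
      intro x hx hx'
      fin_cases j <;> fin_cases j'
      · exact hjj rfl
      · exact Finset.disjoint_left.1 (hdis (g t0)) hx hx'
      · exact Finset.disjoint_left.1 (hdis (g t0)) hx' hx
      · exact hjj rfl
    rcases Nat.lt_or_eq_of_le hp with hlt' | heq
    · have hlen : pz j0 (cc j) ≤ len (cc j) := ((hpz j0 hj0N) (cc j)).2.le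
      refine (hT (g t0) j').sep _ hmem (r (cc j) 0) (hr.start (cc j)) _ rfl ?_
      refine (rail_walk hr (cc j) p (by omega) p le_rfl).mono_set ?_
      rintro x ⟨p', hp', rfl⟩ ⟨c', hc'⟩
      obtain ⟨h1, h2⟩ := hr.inj _ _ _ _ (by omega) ((hpz j0 hj0N) c').2.le hc'
      subst h1
      omega
    · have h1 := (hT (g t0) j).start
      rw [hcc t0 ht0 j] at h1
      rw [heq] at hmem
      exact hdj _ h1 hmem
  have hTdis : Disjoint (T 0) (T 1) := by
    rw [Set.disjoint_left]
    intro x hx hx'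
    rcases hx with ⟨p, hp, h1⟩ | h1 <;> rcases hx' with ⟨p', hp', h2⟩ | h2
    · rw [h1] at h2
      obtain ⟨h3, _⟩ := hr.inj _ _ _ _ (hp.trans ((hpz j0 hj0N) (cc 0)).2.le)
        (hp'.trans ((hpz j0 hj0N) (cc 1)).2.le) h2
      exact hccne h3
    · rw [h1] at h2
      exact hrA 0 1 (by decide) p hp h2
    · rw [h2] at h1
      exact hrA 1 0 (by decide) p' hp' h1
    · exact Finset.disjoint_left.1 (hdis (g t0)) h1 h2
  -- multiplicity
  have hmult : ∀ j x, {n | x ∈ S j n}.ncard ≤ 2 := by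
    intro j x
    have hsub : {n | x ∈ S j n} ⊆ {n | x ∈ (A (g (I.equivFin.symm n)) j : Set Vx) \ Y} ∪
        {n | x = Sum.inr (v (g (I.equivFin.symm n)))} := fun n hn => hn
    have h1 : ({n | x ∈ (A (g (I.equivFin.symm n)) j : Set Vx) \ Y} :
        Set (Fin I.card)).ncard ≤ 1 := by
      rw [Set.ncard_le_one_iff]
      intro n n' hn hn'
      by_contra hne
      have hne2 : (I.equivFin.symm n : Fin (b * KLO + 2)) ≠ I.equivFin.symm n' := by
        intro h
        exact hne (I.equivFin.symm.injective (Subtype.ext h))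
      have hAj : ∀ t, (A t j : Set Vx) ⊆ ((A t 0 ∪ A t 1 : Finset Vx) : Set Vx) := by
        intro t z hz
        rw [Finset.coe_union]
        fin_cases j
        · exact Or.inl hz
        · exact Or.inr hz
      have h2 := (hY _ _ hne2 x).1 ⟨hAj _ hn.1, hAj _ hn'.1⟩
      exact hn.2 h2
    have h2 : ({n | x = Sum.inr (v (g (I.equivFin.symm n)))} : Set (Fin I.card)).ncard ≤ 1 := by
      rw [Set.ncard_le_one_iff]
      intro n n' hn hn'
      have h3 : (Sum.inr (v (g (I.equivFin.symm n))) : Vx) =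
          Sum.inr (v (g (I.equivFin.symm n'))) := hn.symm.trans hn'
      exact I.equivFin.symm.injective (Subtype.ext (hginj (hvinj (Sum.inr.inj h3))))
    calc {n | x ∈ S j n}.ncard ≤ _ := Set.ncard_le_ncard hsub (Set.toFinite _)
      _ ≤ _ := Set.ncard_union_le _ _
      _ ≤ 2 := by omega
  -- the end
  obtain ⟨a1, ha1, ha1', hra1⟩ := hr.start (cc 0)
  obtain ⟨a2, ha2, ha2', hra2⟩ := hr.start (cc 1)
  have hane : a1 ≠ a2 := by
    intro h
    rw [h, ← hra2] at hra1
    exact hccne (hr.inj _ _ _ _ (Nat.zero_le _) (Nat.zero_le _) hra1).1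
  have hfinal := hKLO M F m hG hR hm hex a1 a2 hane ha1 ha1' ha2 ha2' (T 0) (T 1) hTdis I.card
    (fun n => Sum.inr (v (g (I.equivFin.symm n)))) (by
      intro n n' h
      exact I.equivFin.symm.injective (Subtype.ext (hginj (hvinj (Sum.inr.inj h)))))
    (fun n => Or.inl ⟨_, (hX _ (hvX _)).1, rfl⟩) (S 0) (S 1)
    (fun n => by rw [← hra1]; exact hwalk 0 n) (fun n => by rw [← hra2]; exact hwalk 1 n)
    (hmult 0) (hmult 1)
  omega

end Pool.Agent.H84.GW
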