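import Pool.Agent.H55.GW.Targets3

/-!
Module XW of the board wq_modules: few vertices of class P are cut off from the sinks by
monotone cuts (from XU by duality).
-/

set_option autoImplicit false

open Pool.Agent.H55.GW
open Pool.Agent.H55.GW.Frame

namespace Pool.Agent.H84.GW

theorem dual_exits {F : Frame} {m : ℕ → Vx} {φ : ℕ → ℕ} (hm : F.IsPM m) (h : F.Feeds m φ) :
    F.dual.Exits m φ := by
  intro X hX S hS
  rw [dual_snk] at hS
  rw [dual_sep hm] at hS
  refine h X (fun x hx => ?_) S hS
  have := hX x hx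
  rw [dual_inn, dual_snk] at this
  exact this

theorem dual_feeds {F : Frame} {m : ℕ → Vx} {φ : ℕ → ℕ} (hm : F.IsPM m) (h : F.Exits m φ) :
    F.dual.Feeds m φ := by
  intro X hX S hS
  rw [dual_src] at hS
  rw [dual_sep hm] at hS
  refine h X (fun x hx => ?_) S hS
  have := hX x hx
  rw [dual_inn, dual_src] at this
  exact this

theorem dual_exc {F : Frame} {v : ℕ} (h : F.Exc v) : F.dual.Exc v :=
  ⟨fun u => ⟨(h.1 u).2, (h.1 u).1⟩, h.2⟩

theorem dual_coFan {F : Frame} {m : ℕ → Vx} (hm : F.IsPM m) (h : F.Fan m) :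
    F.dual.CoFan m := by
  intro p hp hP
  rw [dual_isP, not_not] at hP
  rcases h p hp hP with h1 | h1
  · exact Or.inl (dual_exc h1)
  · refine Or.inr fun z hz => ?_
    obtain ⟨t, ht, h2⟩ := h1 z hz
    exact ⟨t, by rw [dual_src]; exact ht, (dual_rIn hm).2 h2⟩

theorem dual_rails {F : Frame} {m : ℕ → Vx} (hm : F.IsPM m) {k : ℕ} {len : Fin k → ℕ}
    {r : Fin k → ℕ → Vx} (h : Rails (F.D m) k len r (F.src m) (F.snk m)) :
    Rails (F.dual.D m) k len (fun c p => r c (len c - p)) (F.dual.src m) (F.dual.snk m) where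
  start c := by
    rw [dual_src, Nat.sub_zero]
    exact h.fin c
  fin c := by
    rw [dual_snk, Nat.sub_self]
    exact h.start c
  arc c p hp := by
    rw [dual_D hm]
    have h1 := h.arc c (len c - (p + 1)) (by omega)
    have h2 : len c - (p + 1) + 1 = len c - p := by omega
    rwa [h2] at h1
  inj c p c' p' hp hp' he := by
    obtain ⟨h1, h2⟩ := h.inj c (len c - p) c' (len c' - p') (Nat.sub_le _ _) (Nat.sub_le _ _) he
    subst h1
    exact ⟨rfl, by omega⟩

theorem xw (hXU : T_XU) (hDUR : T_DUR) (hDUG : T_DUG) : T_XW := by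
  intro q hq φ hφ k
  obtain ⟨K, hK⟩ := hXU q hq φ hφ k
  refine ⟨K, ?_⟩
  intro M F m hG hR hm hex hfe hfan len r hr N pz h1 h2 X hX
  refine hK M.dual F.dual m (hDUG q M hG) (hDUR F M hR) (dual_isPM.2 hm) (dual_exits hm hfe)
    (dual_feeds hm hex) (dual_coFan hm hfan) len _ (dual_rails hm hr) N
    (fun i c => len c - pz (N - i) c) ?_ ?_ X ?_
  · intro i hi c
    have := h1 (N - i) (Nat.sub_le _ _) c
    omega
  · intro i j hij hj c
    have := h2 (N - j) (N - i) (by omega) (Nat.sub_le _ _) c
    omega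
  · intro v hv
    obtain ⟨h3, h4, i, hi, h5, h6⟩ := hX v hv
    refine ⟨h3, ?_, N - i, Nat.sub_le _ _, ?_⟩
    · rw [dual_isP, not_not]
      exact h4
    · have hZ : Zs (fun c p => r c (len c - p)) (fun c => len c - pz (N - (N - i)) c) =
          Zs r (pz i) := by
        have h7 : N - (N - i) = i := by omega
        ext x
        constructor
        · rintro ⟨c, hc⟩
          refine ⟨c, ?_⟩
          have := h1 i hi c
          simp only [h7] at hc
          rw [hc]
          congr 1
          omega
        · rintro ⟨c, hc⟩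
          refine ⟨c, ?_⟩
          have := h1 i hi c
          simp only [h7]
          rw [hc]
          congr 1
          omega
      change Sum.inr v ∉ Zs (fun c p => r c (len c - p)) (fun c => len c - pz (N - (N - i)) c) ∧
        Sep (F.dual.D m) (Zs (fun c p => r c (len c - p)) (fun c => len c - pz (N - (N - i)) c))
          (F.dual.src m) {Sum.inr v}
      rw [hZ]
      refine ⟨h5, ?_⟩
      rw [dual_sep hm, dual_src]
      exact h6

end Pool.Agent.H84.GW
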