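import Pool.Agent.H84.GB.ZPB
import Pool.Agent.H16.GW.Targets

/-!
Row LOB of the board gwf: local facts on the bump functions.
-/

set_option autoImplicit false

namespace Pool.Agent.H84.GW

open MeasureTheory Pool.Agent.H34.GM Pool.Agent.H34.GU Pool.Agent.H34.GA Pool.Agent.H84.GA
  Pool.Agent.H84.GB Pool.Agent.H16.GW
open Pool.Agent.H34.GZ hiding eu eu2 cf

/-- continuity -/
lemma l_cont {m : ℕ} (hm : 1 ≤ m) (hUDE : T_UDE) {χ : ℝ → ℝ} (hχ : Prof χ) {δ : ℝ} (hδ : 0 < δ)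
    (hδ2 : δ ≤ 1 / 2) {f : Mat m → ℂ} (hf : Cof m f 1) :
    ContinuousOn (uu (Pool.Agent.H34.GA.cf (bi m χ δ)) f) (Set.Ioi 0) := by
  have hTg : TgS m (bi m χ δ) := by
    obtain ⟨C0, -, h0⟩ := pf_BIA m χ hm hχ
    exact (h0 δ hδ hδ2).1
  have h2 := (pf_TEU m hm _ hTg).2.1
  intro r hr
  exact (hUDE m hm f 1 hf _ _ (pf_FTB m hm _ hTg).1 (pf_FTB m hm _ h2).1
    (pf_FDD m hm _ hTg).2 r hr).continuousAt.continuousWithinAt

/-- the bound of the dual weight -/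
lemma l_dual {m : ℕ} (hm : 1 ≤ m) (hU : T_UBD) {χ : ℝ → ℝ} (hχ : Prof χ) {K : ℕ}
    (hK : m ^ 2 ≤ K) :
    ∃ C : ℝ, 0 < C ∧ ∀ δ : ℝ, 0 < δ → δ ≤ 1 / 2 → ∀ f : Mat m → ℂ, Cof m f 1 → ∀ r : ℝ, 0 < r →
      ‖uu (Pool.Agent.H34.GA.cf (bi m χ δ)) f r‖ ≤ C * δ ^ (m ^ 2) * (r / δ) ^ K := by
  obtain ⟨N, C, hC, hU⟩ := hU m hm (K : ℝ) (by exact_mod_cast hK)
  have hs := BD.b1_smooth (m := m) hχ
  have hc := BD.b1_comp (m := m) hχ
  have hdc := DE.dc_pos (BD.b1 m χ) N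
  refine ⟨C * DE.dc (BD.b1 m χ) N, by positivity, ?_⟩
  intro δ hδ hδ2 f hf r hr
  set G : Mat m → ℂ := fun w => Pool.Agent.H34.GA.cf (bi m χ δ) (δ⁻¹ • w) with hG
  have hft : ∀ w : Mat m, ft (bi m χ δ) w =
      ∫ z : V m, (BD.b1 m χ) (δ⁻¹ • (z - BD.oneV m)) * FD.EE w z := by
    intro w
    unfold ft
    apply integral_congr_ae
    filter_upwards with z
    rw [BD.bi_eq χ hδ z]
    rfl
  have hGb : ∀ w, ‖G w‖ ≤ (δ ^ (m * m) * DE.dc (BD.b1 m χ) N) * (1 + sz w) ^ (-(N : ℝ)) := by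
    intro w
    show ‖(starRingEnd ℂ) (ft (bi m χ δ) (δ⁻¹ • w))‖ ≤ _
    rw [RCLike.norm_conj, hft, FY.sc _ hδ, smul_smul, mul_inv_cancel₀ hδ.ne', one_smul, mul_assoc]
    exact mul_le_mul_of_nonneg_left (DE.dec hs hc N w) (by positivity)
  have hGc : Continuous G := by
    have hbs : Continuous fun z : V m => bi m χ δ (mt z) :=
      (BD.bi_smooth (m := m) hχ hδ).continuous
    have hcs : HasCompactSupport fun z : V m => bi m χ δ (mt z) := by
      refine HasCompactSupport.intro BD.KK_comp ?_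
      intro z hz
      by_contra hn
      exact hz (BD.mem_KK hχ hδ hδ2 hn)
    have h1 : Continuous fun w : Mat m => ft (bi m χ δ) w := DE.ft_cont hbs hcs
    exact Complex.continuous_conj.comp (h1.comp (continuous_const_smul δ⁻¹))
  have hrd : 0 < r / δ := div_pos hr hδ
  have h1 := (hU f G 1 (δ ^ (m * m) * DE.dc (BD.b1 m χ) N)
    hf zero_le_one (by positivity) hGc hGb (r / δ) hrd).2
  have hsh : MeasurableSet (Shell m) := by
    have hd : Measurable fun z : V m => aN (mt z) := by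
      unfold aN
      exact (FD.cont_det.abs.measurable).pow_const _
    exact (measurableSet_le measurable_const hd).inter (measurableSet_lt hd measurable_const)
  have h2 : uu (Pool.Agent.H34.GA.cf (bi m χ δ)) f r = uu G f (r / δ) := by
    unfold uu
    apply setIntegral_congr_fun hsh
    intro z hz
    show Pool.Agent.H34.GA.cf (bi m χ δ) ((r⁻¹ * (aN (mt z))⁻¹) • mt z) * f (mt z) =
      Pool.Agent.H34.GA.cf (bi m χ δ) (δ⁻¹ • (((r / δ)⁻¹ * (aN (mt z))⁻¹) • mt z)) * f (mt z)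
    have h3 : δ⁻¹ • (((r / δ)⁻¹ * (aN (mt z))⁻¹) • mt z) = (r⁻¹ * (aN (mt z))⁻¹) • mt z := by
      rw [smul_smul]
      congr 1
      field_simp
    rw [h3]
  rw [h2]
  refine h1.trans (le_of_eq ?_)
  rw [Real.rpow_natCast, pow_two]
  ring

/-- the bound of the zeta integral -/
lemma l_za {m : ℕ} (hm1 : 1 ≤ m) {χ : ℝ → ℝ} (hχ : Prof χ) (σ : ℝ) :
    ∃ C : ℝ, 0 < C ∧ ∀ δ : ℝ, 0 < δ → δ ≤ 1 / 2 → ∀ f : Mat m → ℂ, Cof m f 1 → ∀ s : ℂ,
      |s.re| ≤ σ → ‖ZA (bi m χ δ) f s‖ ≤ C * δ ^ (m ^ 2) := by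
  obtain ⟨C2, hC2, hK⟩ := BD.KK_bd (m := m)
  obtain ⟨C3, hC3⟩ := (BD.KK_comp.image (FD.cont_det (m := m)).abs).bddAbove
  have hC3' : ∀ z ∈ BD.KK m, |(mt z).det| ≤ C3 := fun z hz => hC3 ⟨z, hz, rfl⟩
  obtain ⟨Cb, -, hbi⟩ := pf_BIA m χ hm1 hχ
  set C4 : ℝ := max C3 C2 with hC4
  have hC41 : 1 ≤ C4 := hC2.trans (le_max_right _ _)
  have hC4' : 0 < C4 := by linarith
  set v : ENNReal := (volume : Measure (V m)) (Metric.ball 0 1) with hv
  have hvt : v ≠ ⊤ := measure_ball_lt_top.ne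
  have hC40 : 0 ≤ C4 ^ ((m : ℝ) + σ) * (C2 ^ m * v.toReal) := by positivity
  refine ⟨C4 ^ ((m : ℝ) + σ) * (C2 ^ m * v.toReal) + 1, by linarith, ?_⟩
  intro δ hδ hδ2 f hf s hs
  have hb : ∀ z : Mat m, ‖bi m χ δ z‖ ≤ 1 := fun z => ((hbi δ hδ hδ2).2 z).1
  set S : Set (V m) := BD.KK m ∩ Metric.closedBall (BD.oneV m) δ with hS
  have hScl : IsClosed S := BD.KK_comp.isClosed.inter Metric.isClosed_closedBall
  have hsupp : ∀ z : V m, bi m χ δ (mt z) ≠ 0 → z ∈ S := by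
    intro z hz
    refine ⟨BD.mem_KK hχ hδ hδ2 hz, ?_⟩
    rw [mem_closedBall_iff_norm]
    exact BD.sz_sub_le hχ hδ hz
  have hmS : hm m S ≤ ENNReal.ofReal (C2 ^ m) * (ENNReal.ofReal (δ ^ (m * m)) * v) := by
    have h1 : hm m S = ∫⁻ z in S, ENNReal.ofReal ((|(mt z).det| ^ m)⁻¹) := by
      unfold hm
      rw [withDensity_apply _ hScl.measurableSet]
    have h2 : (volume : Measure (V m)) S ≤ ENNReal.ofReal (δ ^ (m * m)) * v := by
      refine (measure_mono Set.inter_subset_right).trans ?_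
      rw [Measure.addHaar_closedBall _ _ hδ.le]
      have h3 : Module.finrank ℝ (V m) = m * m := by
        rw [Module.finrank_pi_fintype]
        simp
      rw [h3]
    rw [h1]
    calc ∫⁻ z in S, ENNReal.ofReal ((|(mt z).det| ^ m)⁻¹)
        ≤ ∫⁻ _z in S, ENNReal.ofReal (C2 ^ m) := by
          apply setLIntegral_mono' hScl.measurableSet
          intro z hz
          apply ENNReal.ofReal_le_ofReal
          rw [← inv_pow]
          have h4 := (hK z hz.1).1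
          apply pow_le_pow_left₀ (by positivity)
          rw [inv_le_comm₀ (abs_pos.2 (BD.KK_pos hz.1).ne') (by linarith)]
          exact h4
      _ = ENNReal.ofReal (C2 ^ m) * (volume : Measure (V m)) S := by
          rw [setLIntegral_const]
      _ ≤ _ := mul_le_mul_right h2 _
  have hpt : ∀ z : V m, ‖bi m χ δ (mt z) *
      ((|(mt z).det| : ℝ) : ℂ) ^ (s + ((m : ℂ) - 1) / 2) * f (mt z)‖ ≤
      S.indicator (fun _ => C4 ^ ((m : ℝ) + σ)) z := by
    intro z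
    by_cases hz : z ∈ S
    · rw [Set.indicator_of_mem hz, norm_mul, norm_mul]
      have hd : 0 < |(mt z).det| := abs_pos.2 (BD.KK_pos hz.1).ne'
      have h1 : ‖((|(mt z).det| : ℝ) : ℂ) ^ (s +
          ((m : ℂ) - 1) / 2)‖ ≤ C4 ^ ((m : ℝ) + σ) := by
        rw [Complex.norm_cpow_eq_rpow_re_of_pos hd]
        have h2 : (s + ((m : ℂ) - 1) / 2).re = s.re + ((m : ℝ) - 1) / 2 := by
          have : (s + ((m : ℂ) - 1) / 2) = s + ((((m : ℝ) - 1) / 2 : ℝ) : ℂ) := by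
            push_cast
            ring
          rw [this, Complex.add_re, Complex.ofReal_re]
        rw [h2]
        have hm1' : (1 : ℝ) ≤ m := by exact_mod_cast hm1
        have ha := abs_le.1 hs
        have hup : |(mt z).det| ≤ C4 := (hC3' z hz.1).trans (le_max_left _ _)
        have hlo : C4⁻¹ ≤ |(mt z).det| :=
          (inv_anti₀ (by linarith) (le_max_right _ _)).trans (hK z hz.1).1
        by_cases he : 0 ≤ s.re + ((m : ℝ) - 1) / 2
        · refine (Real.rpow_le_rpow hd.le hup he).trans ?_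
          exact Real.rpow_le_rpow_of_exponent_le hC41 (by linarith [ha.2])
        · push Not at he
          have h5 : |(mt z).det| ^ (s.re + ((m : ℝ) - 1) / 2) ≤
              (C4⁻¹) ^ (s.re + ((m : ℝ) - 1) / 2) :=
            Real.rpow_le_rpow_of_nonpos (by positivity) hlo he.le
          refine h5.trans ?_
          rw [Real.inv_rpow hC4'.le, ← Real.rpow_neg hC4'.le]
          exact Real.rpow_le_rpow_of_exponent_le hC41 (by linarith [ha.1])
      have h3 : ‖f (mt z)‖ ≤ 1 := hf.bd _ (BD.KK_pos hz.1).ne'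
      calc ‖bi m χ δ (mt z)‖ * ‖((|(mt z).det| : ℝ) : ℂ) ^
            (s + ((m : ℂ) - 1) / 2)‖ * ‖f (mt z)‖
          ≤ 1 * C4 ^ ((m : ℝ) + σ) * 1 := by
            apply mul_le_mul _ h3 (norm_nonneg _) (by positivity)
            exact mul_le_mul (hb _) h1 (norm_nonneg _) zero_le_one
        _ = _ := by ring
    · rw [Set.indicator_of_notMem hz]
      have h1 : bi m χ δ (mt z) = 0 := by
        by_contra hn
        exact hz (hsupp z hn)
      rw [h1, zero_mul, zero_mul, norm_zero]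
  have hint : (∫⁻ z : V m, ‖bi m χ δ (mt z) *
      ((|(mt z).det| : ℝ) : ℂ) ^ (s + ((m : ℂ) - 1) / 2) *
        f (mt z)‖ₑ ∂(hm m)) ≤
      ENNReal.ofReal (C4 ^ ((m : ℝ) + σ) * (C2 ^ m * v.toReal) * δ ^ (m ^ 2)) := by
    calc (∫⁻ z : V m, ‖bi m χ δ (mt z) *
          ((|(mt z).det| : ℝ) : ℂ) ^ (s + ((m : ℂ) - 1) / 2) *
            f (mt z)‖ₑ ∂(hm m))
        ≤ ∫⁻ z : V m, S.indicator (fun _ => ENNReal.ofReal
            (C4 ^ ((m : ℝ) + σ))) z ∂(hm m) := by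
          apply lintegral_mono
          intro z
          have h1 := hpt z
          beta_reduce
          rw [← ofReal_norm]
          by_cases hz : z ∈ S
          · rw [Set.indicator_of_mem hz] at h1
            rw [Set.indicator_of_mem hz]
            exact ENNReal.ofReal_le_ofReal h1
          · rw [Set.indicator_of_notMem hz] at h1
            rw [Set.indicator_of_notMem hz]
            rw [ENNReal.ofReal_of_nonpos h1]
      _ = ENNReal.ofReal (C4 ^ ((m : ℝ) + σ)) * hm m S := by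
          rw [lintegral_indicator_const hScl.measurableSet]
      _ ≤ ENNReal.ofReal (C4 ^ ((m : ℝ) + σ)) *
          (ENNReal.ofReal (C2 ^ m) * (ENNReal.ofReal (δ ^ (m * m)) * v)) :=
          mul_le_mul_right hmS _
      _ = ENNReal.ofReal (C4 ^ ((m : ℝ) + σ) * (C2 ^ m * v.toReal) * δ ^ (m ^ 2)) := by
          rw [← ENNReal.ofReal_toReal hvt, ← ENNReal.ofReal_mul (by positivity),
            ← ENNReal.ofReal_mul (by positivity), ← ENNReal.ofReal_mul (by positivity)]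
          congr 1
          rw [ENNReal.toReal_ofReal ENNReal.toReal_nonneg, pow_two]
          ring
  have hfin : ‖ZA (bi m χ δ) f s‖ₑ ≤
      ENNReal.ofReal (C4 ^ ((m : ℝ) + σ) * (C2 ^ m * v.toReal) * δ ^ (m ^ 2)) := by
    unfold ZA
    exact (enorm_integral_le_lintegral_enorm _).trans hint
  have h9 : 0 ≤ C4 ^ ((m : ℝ) + σ) * (C2 ^ m * v.toReal) * δ ^ (m ^ 2) := by positivity
  rw [← ofReal_norm, ENNReal.ofReal_le_ofReal_iff h9] at hfin
  have h10 : 0 ≤ δ ^ (m ^ 2) := by positivity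
  linarith

/-- the support -/
lemma l_supp {m : ℕ} (hm : 1 ≤ m) {χ : ℝ → ℝ} (hχ : Prof χ) :
    ∃ C : ℝ, 1 ≤ C ∧ ∀ δ : ℝ, 0 < δ → δ ≤ 1 / 2 → ∀ (f : Mat m → ℂ) (r : ℝ), 0 < r →
      uu (bi m χ δ) f r ≠ 0 → C⁻¹ ≤ r ∧ r ≤ C := by
  obtain ⟨C2, hC2, hK⟩ := BD.KK_bd (m := m)
  obtain ⟨C3, hC3⟩ := (BD.KK_comp.image (FD.cont_det (m := m)).abs).bddAbove
  have hC3' : ∀ z ∈ BD.KK m, |(mt z).det| ≤ C3 := fun z hz => hC3 ⟨z, hz, rfl⟩
  refine ⟨max C2 C3, hC2.trans (le_max_left _ _), ?_⟩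
  intro δ hδ hδ2 f r hr h0
  have hex : ∃ z ∈ Shell m, bi m χ δ ((r⁻¹ * (aN (mt z))⁻¹) • mt z) ≠ 0 := by
    by_contra hn
    push Not at hn
    apply h0
    unfold uu
    apply setIntegral_eq_zero_of_forall_eq_zero
    intro z hz
    rw [hn z hz, zero_mul]
  obtain ⟨z, hz, hne⟩ := hex
  have hw : (((r⁻¹ * (aN (mt z))⁻¹) • mt z : Mat m) : V m) ∈ BD.KK m :=
    BD.mem_KK hχ hδ hδ2 (z := (((r⁻¹ * (aN (mt z))⁻¹) • mt z : Mat m) : V m)) hne
  have hdet : |((r⁻¹ * (aN (mt z))⁻¹) • mt z : Mat m).det| = r⁻¹ ^ m := by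
    rw [det_nz hm, abs_mul, sg_abs (shell_det hm hz), mul_one, abs_of_pos (by positivity)]
  have h1 : C2⁻¹ ≤ r⁻¹ ^ m := by
    have := (hK _ hw).1
    have h2 : |(mt (((r⁻¹ * (aN (mt z))⁻¹) • mt z : Mat m) : V m)).det| = r⁻¹ ^ m := hdet
    rw [h2] at this
    exact this
  have h2 : r⁻¹ ^ m ≤ C3 := by
    have := hC3' _ hw
    have h2 : |(mt (((r⁻¹ * (aN (mt z))⁻¹) • mt z : Mat m) : V m)).det| = r⁻¹ ^ m := hdet
    rw [h2] at this
    exact this
  rw [inv_pow] at h1 h2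
  have hrm : 0 < r ^ m := by positivity
  have h3 : r ^ m ≤ C2 := by
    rwa [inv_le_inv₀ (by linarith) hrm] at h1
  have hC30 : 0 < C3 := lt_of_lt_of_le (inv_pos.2 hrm) h2
  have h4 : C3⁻¹ ≤ r ^ m := by
    rw [inv_le_comm₀ hC30 hrm]
    exact h2
  constructor
  · by_cases hr1 : r ≤ 1
    · have h5 : r ^ m ≤ r := by
        have := pow_le_pow_of_le_one hr.le hr1 hm
        rwa [pow_one] at this
      exact (inv_anti₀ hC30 (le_max_right _ _)).trans (h4.trans h5)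
    · push Not at hr1
      have h5 : (max C2 C3)⁻¹ ≤ 1 := inv_le_one_of_one_le₀ (hC2.trans (le_max_left _ _))
      linarith
  · by_cases hr1 : 1 ≤ r
    · have h5 : r ≤ r ^ m := by
        have := pow_le_pow_right₀ hr1 hm
        rwa [pow_one] at this
      exact (h5.trans h3).trans (le_max_left _ _)
    · push Not at hr1
      have h5 : 1 ≤ max C2 C3 := hC2.trans (le_max_left _ _)
      linarith

theorem pf_LOB : T_UBD → T_UDE → T_LOB := by
  intro hU hUDE m χ K hm hχ hK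
  obtain ⟨Ca, hCa, ha⟩ := l_dual hm hU hχ hK
  obtain ⟨Cb, hCb, hb⟩ := l_za hm hχ (1 / 2)
  obtain ⟨Cd, hCd, hd⟩ := l_supp hm hχ
  have h4 : 0 ≤ max Ca Cb := hCa.le.trans (le_max_left _ _)
  refine ⟨max (max Ca Cb) Cd, hCd.trans (le_max_right _ _), ?_⟩
  intro δ hδ hδ2 f hf
  have hd0 : 0 ≤ δ ^ (m ^ 2) := by positivity
  refine ⟨l_cont hm hUDE hχ hδ hδ2 hf, ?_, ?_, ?_, ?_⟩
  · intro r hr
    refine (ha δ hδ hδ2 f hf r hr).trans ?_
    have h3 : 0 ≤ (r / δ) ^ K := by positivity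
    exact mul_le_mul_of_nonneg_right (mul_le_mul_of_nonneg_right
      ((le_max_left _ _).trans (le_max_left _ _)) hd0) h3
  · intro t
    refine (hb δ hδ hδ2 f hf _ ?_).trans (mul_le_mul_of_nonneg_right
      ((le_max_right _ _).trans (le_max_left _ _)) hd0)
    have : ((1 : ℂ) / 2 + t * Complex.I) = (((1 : ℝ) / 2 : ℝ) : ℂ) + ((t : ℝ) : ℂ) * Complex.I := by
      push_cast
      ring
    rw [this]
    simp
  · intro σ
    obtain ⟨C', hC', h'⟩ := l_za hm hχ σ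
    exact ⟨C' * δ ^ (m ^ 2), fun s hs => h' δ hδ hδ2 f hf s hs⟩
  · intro r hr h0
    have h1 := hd δ hδ hδ2 f r hr h0
    have h2 : Cd ≤ max (max Ca Cb) Cd := le_max_right _ _
    exact ⟨(inv_anti₀ (by linarith) h2).trans h1.1, h1.2.trans h2⟩

end Pool.Agent.H84.GW
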